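import Pool.Agent.H37.CNL.Stmts

/-!
Row VIS of board cnl (and a common core for YIS of board cnk).
-/

set_option autoImplicit false

namespace Pool.CND

open Finset

/-- the kernel of a character of `N` -/
def visB {p : ℕ} {G : Type} [Group G] (N : Subgroup G) (χ : G → ZMod p)
    (h : ∀ a ∈ N, ∀ b ∈ N, χ (a * b) = χ a + χ b) : Subgroup G where
  carrier := {a | a ∈ N ∧ χ a = 0}
  one_mem' := by
    refine ⟨N.one_mem, ?_⟩
    have h1 := h 1 N.one_mem 1 N.one_mem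
    rw [mul_one] at h1
    exact (add_eq_left.1 h1.symm)
  mul_mem' := by
    rintro a b ⟨ha, ha'⟩ ⟨hb, hb'⟩
    refine ⟨N.mul_mem ha hb, ?_⟩
    rw [h a ha b hb, ha', hb', add_zero]
  inv_mem' := by
    rintro a ⟨ha, ha'⟩
    refine ⟨N.inv_mem ha, ?_⟩
    have h0 := h 1 N.one_mem 1 N.one_mem
    rw [mul_one] at h0
    have h1 := h a ha a⁻¹ (N.inv_mem ha)
    rw [mul_inv_cancel, add_eq_left.1 h0.symm, ha', zero_add] at h1
    exact h1.symm

theorem mem_visB {p : ℕ} {G : Type} [Group G] (N : Subgroup G) (χ : G → ZMod p)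
    (h : ∀ a ∈ N, ∀ b ∈ N, χ (a * b) = χ a + χ b) (a : G) :
    a ∈ visB N χ h ↔ a ∈ N ∧ χ a = 0 := Iff.rfl

theorem vis_card {p : ℕ} {G : Type} [Group G] [Finite G] (hp : p.Prime) (N : Subgroup G)
    (χ : G → ZMod p) (h : ∀ a ∈ N, ∀ b ∈ N, χ (a * b) = χ a + χ b) (w : G) (hw : w ∈ N)
    (hw1 : χ w = 1) : Nat.card N = p * Nat.card (visB N χ h) := by
  have : Fact p.Prime := ⟨hp⟩
  have hle : visB N χ h ≤ N := fun a ha => ha.1
  let φ : N →* Multiplicative (ZMod p) :=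
    { toFun := fun a => Multiplicative.ofAdd (χ a)
      map_one' := by
        have h1 : (1 : G) ∈ visB N χ h := Subgroup.one_mem _
        show Multiplicative.ofAdd (χ 1) = 1
        rw [h1.2]
        rfl
      map_mul' := by
        intro a b
        show Multiplicative.ofAdd (χ ((a : G) * b)) = _
        rw [h a a.2 b b.2]
        rfl }
  have hsur : Function.Surjective φ := by
    intro y
    have hpow : ∀ n : ℕ, χ (w ^ n) = n := by
      intro n
      induction n with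
      | zero =>
        have h1 : (1 : G) ∈ visB N χ h := Subgroup.one_mem _
        rw [pow_zero, h1.2, Nat.cast_zero]
      | succ n ih =>
        rw [pow_succ, h _ (N.pow_mem hw n) _ hw, ih, hw1, Nat.cast_succ]
    refine ⟨⟨w ^ (Multiplicative.toAdd y).val, N.pow_mem hw _⟩, ?_⟩
    show Multiplicative.ofAdd (χ (w ^ (Multiplicative.toAdd y).val)) = y
    rw [hpow, ZMod.natCast_zmod_val]
    rfl
  have hker : Nat.card φ.ker = Nat.card (visB N χ h) := by
    refine Nat.card_congr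
      { toFun := fun a => ⟨a.1.1, a.1.2, ?_⟩
        invFun := fun a => ⟨⟨a.1, a.2.1⟩, ?_⟩
        left_inv := fun a => by ext; rfl
        right_inv := fun a => by ext; rfl }
    · have h1 : Multiplicative.ofAdd (χ a.1.1) = 1 := a.2
      exact Multiplicative.ofAdd.injective h1
    · show Multiplicative.ofAdd (χ a.1) = 1
      rw [a.2.2]
      rfl
  have h2 := Subgroup.card_mul_index φ.ker
  rw [Subgroup.index_ker, MonoidHom.range_eq_top.2 hsur, hker] at h2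
  rw [← h2, mul_comm]
  congr 1
  rw [Subgroup.card_top, Nat.card_congr Multiplicative.toAdd, Nat.card_zmod]

theorem vis_core (h1 : S_OBS) (p : ℕ) (k L G : Type) [Field k] [CharP k p] [Field L]
    [Algebra k L] [Group G] [Fintype G] (ρ : G →* (L ≃ₐ[k] L)) (P : Place k L) (Δ : L → L)
    (z x : G) (N : Subgroup G) (C₁ : ℤ) (hp : p.Prime) (odd : p ≠ 2) (oz : orderOf z = p)
    (cen : ∀ g : G, g * z = z * g) (zN : z ∈ N) (xN : x ∈ N) (xz : x ^ p = z)
    (pow : ∀ a ∈ N, a ^ p ∈ Subgroup.zpowers z)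
    (com : ∀ g : G, ∀ a ∈ N, g * a * g⁻¹ * a⁻¹ ∈ Subgroup.zpowers z)
    (eq : sm (fun g => P.b (ρ g)) {y | x⁻¹ * y ∈ Subgroup.zpowers z} +
      So P ρ (Subgroup.zpowers z) = C₁)
    (HY : ∀ (B : Subgroup G) (χ : G → ZMod p), B.Normal → B ≤ N →
      (∀ a ∈ N, ∀ b ∈ N, χ (a * b) = χ a + χ b) → (∀ a ∈ N, χ a = 0 ↔ a ∈ B) →
      (∃ a ∈ N, χ a ≠ 0) → ∃ (y : L) (u : ℕ), (∀ b ∈ B, ρ b y = y) ∧
      (∀ a ∈ N, ρ a y = y + algebraMap k L (fp k (χ a))) ∧
      P.ord y = -((Nat.card B * u : ℕ) : ℤ) ∧ ¬ p ∣ u ∧ 1 ≤ u ∧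
      ∀ g ∈ N, g ∉ B → sm (fun g => P.b (ρ g)) {x | g⁻¹ * x ∈ B} = Nat.card B * u)
    (VV : ∀ B : Subgroup G, B.Normal → ∀ x : L, x ≠ 0 → (∀ m ∈ B, ρ m x = x) →
      ∃ m : ℤ, P.ord x = Nat.card B * m ∧ P.Ge (Δ x) (P.ord x - So P ρ B) ∧
      (¬ (p : ℤ) ∣ m → Δ x ≠ 0 ∧ P.ord (Δ x) = P.ord x - So P ρ B))
    (IC : ∀ (B : Subgroup G) (u : ℤ), B.Normal → B ≤ N → z ∈ B → Nat.card N = p * Nat.card B →
      (∀ g ∈ N, g ∉ B → sm (fun g => P.b (ρ g)) {x | g⁻¹ * x ∈ B} = Nat.card B * u) →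
      So P ρ B = So P ρ N + (p - 1) * (Nat.card B * u) ∧
      (Nat.card N : ℤ) * u + So P ρ N ≤ C₁ ∧
      ((∃ g ∈ N, g ∉ B ∧ sm (fun g => P.b (ρ g)) {y | g⁻¹ * y ∈ Subgroup.zpowers z} +
        So P ρ (Subgroup.zpowers z) = C₁) → (Nat.card N : ℤ) * u + So P ρ N = C₁)) :
    ∃ (d : ℕ) (n : Fin (d + 1) → G) (y : Fin (d + 1) → L) (u : ℤ),
      YID p d ρ P Δ z x N C₁ n y u := by
  classical
  obtain ⟨d, n, χ, hnN, hn0, hnp, hχ, hχn, hχz, hgen⟩ := h1 p G N z x hp odd oz cen zN xN xz pow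
    (fun g _ a ha => com g a ha)
  have hone : ∀ i, χ i 1 = 0 := by
    intro i
    have h2 := hχ i 1 N.one_mem 1 N.one_mem
    rw [mul_one] at h2
    exact add_eq_left.1 h2.symm
  have hzB : ∀ i, z ∈ visB N (χ i) (hχ i) := fun i => ⟨zN, hχz i⟩
  have hzpB : ∀ i, Subgroup.zpowers z ≤ visB N (χ i) (hχ i) := fun i =>
    (Subgroup.zpowers_le).2 (hzB i)
  have hNor : ∀ i, (visB N (χ i) (hχ i)).Normal := by
    intro i
    constructor
    intro a ha g
    have h2 : g * a * g⁻¹ = (g * a * g⁻¹ * a⁻¹) * a := by group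
    rw [h2]
    exact Subgroup.mul_mem _ (hzpB i (com g a ha.1)) ha
  have hle : ∀ i, visB N (χ i) (hχ i) ≤ N := fun i a ha => ha.1
  have hcard : ∀ i, Nat.card N = p * Nat.card (visB N (χ i) (hχ i)) := by
    intro i
    refine vis_card hp N (χ i) (hχ i) (n i) (hnN i) ?_
    rw [hχn i i, if_pos rfl]
  have hpos : ∀ i, 0 < Nat.card (visB N (χ i) (hχ i)) := fun i => Nat.card_pos
  have hex : ∀ i, ∃ (y : L) (u : ℕ), (∀ b ∈ visB N (χ i) (hχ i), ρ b y = y) ∧
      (∀ a ∈ N, ρ a y = y + algebraMap k L (fp k (χ i a))) ∧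
      P.ord y = -((Nat.card (visB N (χ i) (hχ i)) * u : ℕ) : ℤ) ∧ ¬ p ∣ u ∧ 1 ≤ u ∧
      ∀ g ∈ N, g ∉ visB N (χ i) (hχ i) →
        sm (fun g => P.b (ρ g)) {x | g⁻¹ * x ∈ visB N (χ i) (hχ i)} =
          Nat.card (visB N (χ i) (hχ i)) * u := by
    intro i
    refine HY (visB N (χ i) (hχ i)) (χ i) (hNor i) (hle i) (hχ i) ?_ ⟨n i, hnN i, ?_⟩
    · intro a ha
      exact ⟨fun h => ⟨ha, h⟩, fun h => h.2⟩
    · rw [hχn i i, if_pos rfl]
      have : Fact p.Prime := ⟨hp⟩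
      exact one_ne_zero
  choose y u hyB hyN hyo hpu hu1 hsm using hex
  have hIC := fun i => IC (visB N (χ i) (hχ i)) (u i) (hNor i) (hle i) (hzB i) (hcard i) (hsm i)
  have hcast : ∀ i, (Nat.card N : ℤ) = p * (Nat.card (visB N (χ i) (hχ i)) : ℤ) := by
    intro i
    rw [hcard i]
    push_cast
    ring
  have hx0 : x ∉ visB N (χ 0) (hχ 0) := by
    intro hx
    have h2 := hx.2
    rw [← hn0, hχn 0 0, if_pos rfl] at h2
    have : Fact p.Prime := ⟨hp⟩
    exact one_ne_zero h2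
  have heq0 : (Nat.card N : ℤ) * u 0 + So P ρ N = C₁ := (hIC 0).2.2 ⟨x, xN, hx0, eq⟩
  have hny : ∀ i j, ρ (n i) (y j) = y j + if i = j then 1 else 0 := by
    intro i j
    rw [hyN j (n i) (hnN i), hχn i j]
    by_cases hij : i = j
    · rw [if_pos hij, if_pos hij]
      congr 1
      have h2 : fp k (1 : ZMod p) = 1 := map_one _
      rw [h2, map_one]
    · rw [if_neg hij, if_neg hij]
      congr 1
      have h2 : fp k (0 : ZMod p) = 0 := map_zero _
      rw [h2, map_zero]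
  have hyne : ∀ i, y i ≠ 0 := by
    intro i h0
    have h2 := hny i i
    rw [if_pos rfl, h0, map_zero, zero_add] at h2
    exact zero_ne_one h2
  have hordp : ∀ i, (p : ℤ) * P.ord (y i) = -((Nat.card N : ℤ) * u i) := by
    intro i
    rw [hyo i, hcast i]
    push_cast
    ring
  have hSo : ∀ i, P.ord (y i) - So P ρ (visB N (χ i) (hχ i)) =
      -((Nat.card N : ℤ) * u i + So P ρ N) := by
    intro i
    rw [hyo i, (hIC i).1, hcast i]
    push_cast
    ring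
  have hVV : ∀ i, P.Ge (Δ (y i)) (P.ord (y i) - So P ρ (visB N (χ i) (hχ i))) ∧
      Δ (y i) ≠ 0 ∧ P.ord (Δ (y i)) = P.ord (y i) - So P ρ (visB N (χ i) (hχ i)) := by
    intro i
    obtain ⟨m, hm1, hm2, hm3⟩ := VV (visB N (χ i) (hχ i)) (hNor i) (y i) (hyne i) (hyB i)
    refine ⟨hm2, hm3 ?_⟩
    have h2 : m = -(u i : ℤ) := by
      have h3 : (Nat.card (visB N (χ i) (hχ i)) : ℤ) ≠ 0 := by
        exact_mod_cast (hpos i).ne'
      apply mul_left_cancel₀ h3
      rw [← hm1, hyo i]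
      push_cast
      ring
    rw [h2, dvd_neg, Int.natCast_dvd_natCast]
    exact hpu i
  refine ⟨d, n, y, u 0, ?_⟩
  constructor
  · exact hnN
  · exact hn0
  · exact hnp
  · intro v hzv hnv a ha
    have h2 := hgen a ha
    refine Subgroup.closure_induction (p := fun a _ => ρ a v = v) ?_ ?_ ?_ ?_ h2
    · rintro b (rfl | ⟨i, rfl⟩)
      · exact hzv
      · exact hnv i
    · rw [map_one]
      rfl
    · intro b c _ _ hb hc
      rw [map_mul]
      show ρ b (ρ c v) = v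
      rw [hc, hb]
    · intro b _ hb
      have h3 : ρ b⁻¹ (ρ b v) = v := by
        have h4 : (ρ b⁻¹ * ρ b) v = v := by
          rw [← map_mul, inv_mul_cancel, map_one]
          rfl
        exact h4
      rw [hb] at h3
      exact h3
  · intro i
    exact hyB i z (hzB i)
  · exact hny
  · exact hyne
  · intro i
    rw [hyo i]
    have h2 : 0 < Nat.card (visB N (χ i) (hχ i)) * u i := Nat.mul_pos (hpos i) (hu1 i)
    have h3 : (0 : ℤ) < ((Nat.card (visB N (χ i) (hχ i)) * u i : ℕ) : ℤ) := by exact_mod_cast h2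
    linarith
  · exact_mod_cast hu1 0
  · linarith
  · rw [Int.natCast_dvd_natCast]
    exact hpu 0
  · exact hordp 0
  · intro i
    rw [hordp i]
    have h2 := (hIC i).2.1
    linarith
  · refine ⟨(hVV 0).2.1, ?_⟩
    rw [(hVV 0).2.2, hSo 0, heq0]
  · intro i
    refine P.ge_mono (hVV i).1 ?_
    rw [hSo i]
    have h2 := (hIC i).2.1
    linarith

theorem vis_thm (h1 : S_OBS) (h2 : S_VHY) (h3 : S_VVV) (h4 : S_VIC) (_h5 : S_VAS) : S_VIS := by
  intro p k L G _ _ _ _ _ _ ρ t P Δ z x N C₁ h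
  have := h.cv.ch
  refine vis_core h1 p k L G ρ P Δ z x N C₁ h.cv.pr h.odd h.oz h.cen h.zN h.xN h.xz h.pow h.com
    h.eq ?_ ?_ ?_
  · intro B χ hB hBN ha hb hc
    exact h2 p k L G ρ t P Δ N B χ h.cv h.nor hB hBN ha hb hc
  · intro B hB
    exact h3 p k L G ρ t P Δ B h.cv hB
  · intro B u hB hBN hz hc hs
    exact h4 p k L G ρ t P Δ z N B u C₁ h.cv h.oz h.cen h.nor hB hBN hz hc hs h.le

end Pool.CND
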